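import Mathlib

set_option autoImplicit false

namespace Pool.Agent.Results.MP_e14bb7_co.Main

open MvPolynomial Finset

section
variable {V F : Type} [Fintype V] [DecidableEq V] [Field F]

noncomputable def D (f : MvPolynomial V F) : MvPolynomial V F := ∑ v, pderiv v f

lemma D_mul (f g : MvPolynomial V F) : D (f * g) = f * D g + g * D f := by
  simp [D, Derivation.leibniz, Finset.sum_add_distrib, Finset.mul_sum]

lemma D_X (a : V) : D (X a : MvPolynomial V F) = 1 := by
  simp [D, pderiv_X, Pi.single_apply]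

lemma D_sub (f g : MvPolynomial V F) : D (f - g) = D f - D g := by
  simp [D, Finset.sum_sub_distrib]

lemma D_prod {ι : Type} [DecidableEq ι] (E : Finset ι) (a b : ι → V) :
    D (∏ e ∈ E, (X (a e) - X (b e)) : MvPolynomial V F) = 0 := by
  induction E using Finset.induction_on with
  | empty => simp [D]
  | insert e E he ih => rw [Finset.prod_insert he, D_mul, ih, D_sub, D_X, D_X]; simp

lemma coeff_zero_of {ι : Type} [DecidableEq ι] (E : Finset ι) (a b : ι → V) (w : V)
    (t : V →₀ ℕ) (ht : ∀ v, ((t v : F) + 1) = 0) :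
    (∏ e ∈ E, (X (a e) - X (b e)) : MvPolynomial V F).coeff t = 0 := by
  set P : MvPolynomial V F := ∏ e ∈ E, (X (a e) - X (b e)) with hP
  have h : D (X w * P) = P := by
    rw [D_mul, hP, D_prod, D_X]; simp
  rw [← h, D, coeff_sum]
  refine Finset.sum_eq_zero fun v _ => ?_
  rw [coeff_pderiv, ht, mul_zero]

lemma core {ι : Type} [DecidableEq ι] (E : Finset ι) (a b : ι → V) (w : V) (j : ℕ)
    (hj : (j : F) + 1 = 0) (hE : E.card = j * Fintype.card V) (S : V → Finset F)
    (hS : ∀ v, (S v).card = j + 1) (c : V → F) (hc : ∀ v, c v ∈ S v)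
    (hc2 : ∀ e ∈ E, c (a e) ≠ c (b e))
    (hu : ∀ x : V → F, (∀ v, x v ∈ S v) → (∀ e ∈ E, x (a e) ≠ x (b e)) → x = c) : False := by
  classical
  obtain ⟨m⟩ : Nonempty (MonomialOrder V) := by
    letI : LinearOrder V := WellOrderingRel.isWellOrder.linearOrder
    exact ⟨MonomialOrder.lex⟩
  set P : MvPolynomial V F := ∏ e ∈ E, (X (a e) - X (b e)) with hP
  set Q : MvPolynomial V F := ∏ v, ∏ r ∈ (S v).erase (c v), (X v - C r) with hQ
  set t : V →₀ ℕ := ∑ v, Finsupp.single v j with ht
  have htv : ∀ v, t v = j := by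
    intro v
    simp [ht, Finsupp.finsetSum_apply, Finsupp.single_apply]
  have hcard : ∀ v, ((S v).erase (c v)).card = j := by
    intro v
    rw [Finset.card_erase_of_mem (hc v), hS]; rfl
  have hm1 : ∀ v, m.Monic (∏ r ∈ (S v).erase (c v), (X v - C r) : MvPolynomial V F) :=
    fun v => MonomialOrder.Monic.prod fun r _ => m.monic_X_sub_C v r
  have hd1 : ∀ v, m.degree (∏ r ∈ (S v).erase (c v), (X v - C r) : MvPolynomial V F)
      = Finsupp.single v j := by
    intro v
    rw [MonomialOrder.degree_prod_of_regular]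
    · simp [Finset.sum_congr rfl (fun r _ ↦ m.degree_X_sub_C v r), hcard]
    · intro r _
      rw [m.monic_X_sub_C]
      exact isRegular_one
  have hQm : m.Monic Q := MonomialOrder.Monic.prod fun v _ => hm1 v
  have hQd : m.degree Q = t := by
    rw [hQ, MonomialOrder.degree_prod_of_regular]
    · exact Finset.sum_congr rfl fun v _ => hd1 v
    · intro v _
      rw [hm1 v]
      exact isRegular_one
  have hQc : Q.coeff t = 1 := by
    rw [← hQd]; exact hQm
  have hPc : P.coeff t = 0 := coeff_zero_of E a b w t fun v => by rw [htv, hj]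
  have hPe : eval c P ≠ 0 := by
    rw [hP, map_prod]
    exact Finset.prod_ne_zero_iff.2 fun e he => by simpa [sub_eq_zero] using hc2 e he
  have htd : t.degree = j * Fintype.card V := by
    rw [Finsupp.degree_eq_sum]
    simp [htv, mul_comm]
  have hPt : P.totalDegree ≤ j * Fintype.card V := by
    refine (totalDegree_finsetProd _ _).trans ?_
    rw [← hE]
    refine (Finset.sum_le_card_nsmul _ _ 1 fun e _ => ?_).trans (by simp)
    exact (totalDegree_sub _ _).trans (by simp)
  have hQt : Q.totalDegree ≤ j * Fintype.card V := by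
    refine (totalDegree_finsetProd _ _).trans ?_
    refine (Finset.sum_le_card_nsmul _ _ j fun v _ => ?_).trans (by simp [mul_comm])
    refine (totalDegree_finsetProd _ _).trans ?_
    refine (Finset.sum_le_card_nsmul _ _ 1 fun r _ => ?_).trans (by simp [hcard])
    exact (totalDegree_sub _ _).trans (by simp)
  set f : MvPolynomial V F := C (eval c Q) * P - C (eval c P) * Q with hf
  have hfc : f.coeff t ≠ 0 := by
    rw [hf, coeff_sub, coeff_C_mul, coeff_C_mul, hPc, hQc]
    simpa using hPe
  have hft : f.totalDegree = t.degree := by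
    apply le_antisymm
    · rw [htd]
      refine (totalDegree_sub _ _).trans (max_le ?_ ?_)
      · exact (totalDegree_mul _ _).trans (by simpa using hPt)
      · exact (totalDegree_mul _ _).trans (by simpa using hQt)
    · exact le_totalDegree (mem_support_iff.2 hfc)
  obtain ⟨s, hs, hne⟩ := combinatorial_nullstellensatz_exists_eval_nonzero f t hfc hft S
    (fun v => by rw [htv, hS]; omega)
  apply hne
  by_cases e : s = c
  · subst e
    simp [hf, mul_comm]
  · have h1 : eval s P = 0 := by
      by_contra h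
      rw [hP, map_prod] at h
      exact e (hu s hs fun e he => by
        simpa [sub_eq_zero] using Finset.prod_ne_zero_iff.1 h e he)
    have h2 : eval s Q = 0 := by
      obtain ⟨v, hv⟩ := Function.ne_iff.1 e
      rw [hQ, map_prod]
      refine Finset.prod_eq_zero (Finset.mem_univ v) ?_
      rw [map_prod]
      exact Finset.prod_eq_zero (Finset.mem_erase.2 ⟨hv, hs v⟩) (by simp)
    simp [hf, h1, h2]
end

theorem result (V α : Type) [Fintype V] [Nonempty V] (G : SimpleGraph V) (k : ℕ) (hk : 2 ≤ k)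
    (havg : (2 * G.edgeSet.ncard : ℚ) / Fintype.card V = 2 * k - 2) :
    ¬ ∃ L : V → Finset α, (∀ v, (L v).card = k) ∧
      ∃! c : V → α, (∀ v, c v ∈ L v) ∧ ∀ u v, G.Adj u v → c u ≠ c v := by
  classical
  rintro ⟨L, hL, c, ⟨hc1, hc2⟩, hu⟩
  obtain ⟨j, rfl⟩ : ∃ j, k = j + 1 := ⟨k - 1, by omega⟩
  have hn : (Fintype.card V : ℚ) ≠ 0 := by exact_mod_cast Fintype.card_ne_zero
  have hE : G.edgeFinset.card = j * Fintype.card V := by
    rw [div_eq_iff hn] at havg
    have h1 : G.edgeSet.ncard = G.edgeFinset.card := by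
      rw [← SimpleGraph.coe_edgeFinset, Set.ncard_coe_finset]
    rw [h1] at havg
    push_cast at havg
    have : (G.edgeFinset.card : ℚ) = j * Fintype.card V := by linarith
    exact_mod_cast this
  obtain ⟨p, hp, hpk⟩ := Nat.exists_prime_and_dvd (n := j + 1) (by omega)
  haveI : Fact p.Prime := ⟨hp⟩
  let F := AlgebraicClosure (ZMod p)
  have hj : (j : F) + 1 = 0 := by
    have : ((j + 1 : ℕ) : F) = 0 := (CharP.cast_eq_zero_iff F p _).2 hpk
    exact_mod_cast this
  have hcount : (⋃ v, (L v : Set α)).Countable :=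
    Set.countable_iUnion fun v => (L v).countable_toSet
  obtain ⟨g0, hg0⟩ := Set.countable_iff_exists_injOn.1 hcount
  let g : α → F := fun x => Infinite.natEmbedding F (g0 x)
  have hg : ∀ u v, ∀ x ∈ L u, ∀ y ∈ L v, g x = g y → x = y := fun u v x hx y hy e =>
    hg0 (Set.mem_iUnion.2 ⟨u, hx⟩) (Set.mem_iUnion.2 ⟨v, hy⟩)
      ((Infinite.natEmbedding F).injective e)
  have hab : ∀ e : Sym2 V, ∃ a b, e = s(a, b) := fun e => Sym2.ind (fun a b => ⟨a, b, rfl⟩) e
  choose a b hab using hab
  have hadj : ∀ e ∈ G.edgeFinset, G.Adj (a e) (b e) := by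
    intro e he
    rw [SimpleGraph.mem_edgeFinset, hab e] at he
    exact he
  refine core (F := F) G.edgeFinset a b (Classical.arbitrary V) j hj hE
    (fun v => (L v).image g) (fun v => ?_) (fun v => g (c v))
    (fun v => Finset.mem_image_of_mem _ (hc1 v)) (fun e he h => ?_) (fun x hx hx2 => ?_)
  · rw [Finset.card_image_of_injOn fun x hx y hy e => hg v v x hx y hy e, hL]
  · exact hc2 _ _ (hadj e he) (hg _ _ _ (hc1 _) _ (hc1 _) h)
  · have : ∀ v, ∃ y, y ∈ L v ∧ g y = x v := fun v => Finset.mem_image.1 (hx v)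
    choose y hy1 hy2 using this
    have hyc : y = c := by
      refine hu y ⟨hy1, fun u v huv h => ?_⟩
      have hx3 : x u = x v := by rw [← hy2, ← hy2, h]
      have he : s(u, v) ∈ G.edgeFinset := SimpleGraph.mem_edgeFinset.2 huv
      apply hx2 _ he
      rcases Sym2.eq_iff.1 (hab s(u, v)) with ⟨h1, h2⟩ | ⟨h1, h2⟩
      · rw [← h1, ← h2, hx3]
      · rw [← h1, ← h2, hx3]
    funext v
    rw [← hy2, hyc]

end Pool.Agent.Results.MP_e14bb7_co.Main
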